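import Pool.Agent.Run7.h249.Geo6

/-!
The maximal dimension of geometrically `k`-orbit convex polytopes is linear in `k`.
-/

namespace Pool.Agent.Results.MP_727bc7_co.LinearBounds

/-- `P` is a convex `d`-polytope: the convex hull of finitely many points of `𝔼^d`, with nonempty
interior. -/
def IsConvexPolytope {d : ℕ} (P : Set (EuclideanSpace ℝ (Fin d))) : Prop :=
  (∃ s : Finset (EuclideanSpace ℝ (Fin d)),
      P = convexHull ℝ (s : Set (EuclideanSpace ℝ (Fin d)))) ∧ (interior P).Nonempty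

/-- The face lattice of `P`: its (exposed) faces, the empty face and `P` itself included, ordered
by inclusion. -/
abbrev FaceLattice {d : ℕ} (P : Set (EuclideanSpace ℝ (Fin d))) : Type :=
  {F : Set (EuclideanSpace ℝ (Fin d)) // IsExposed ℝ P F}

/-- Two flags (maximal chains of the face lattice) of `P` are in the same orbit of the symmetry
group `G(P)` of all isometries of `𝔼^d` mapping `P` onto itself. -/
def SameOrbit {d : ℕ} (P : Set (EuclideanSpace ℝ (Fin d))) (c c' : Flag (FaceLattice P)) : Prop :=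
  ∃ g : EuclideanSpace ℝ (Fin d) ≃ᵢ EuclideanSpace ℝ (Fin d), g '' P = P ∧
    ∀ F F' : FaceLattice P, (F' : Set (EuclideanSpace ℝ (Fin d))) = g '' F → (F ∈ c ↔ F' ∈ c')

/-- `P` is geometrically `k`-orbit: `G(P)` has exactly `k` orbits on the flags of `P`. -/
def GeometricallyOrbit {d : ℕ} (P : Set (EuclideanSpace ℝ (Fin d))) (k : ℕ) : Prop :=
  Nat.card (Quot (SameOrbit P)) = k

/-- For every `k ≥ 5` the number `N_k` (the least `N` such that every geometrically `k`-orbit
convex `d`-polytope satisfies `d < N`) satisfies `k + 3 ≤ N_k ≤ k + 30`, and `N_k ≤ k + 15` if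
`k ≥ 39`. -/
theorem result (k : ℕ) (hk : 5 ≤ k) :
    ∃ N : ℕ, IsLeast {N : ℕ | ∀ (d : ℕ) (P : Set (EuclideanSpace ℝ (Fin d))),
      IsConvexPolytope P → GeometricallyOrbit P k → d < N} N ∧
      k + 3 ≤ N ∧ N ≤ k + 30 ∧ (39 ≤ k → N ≤ k + 15) := by
  classical
  have hb : ∀ (d : ℕ) (P : Set (EuclideanSpace ℝ (Fin d))), IsConvexPolytope P →
      GeometricallyOrbit P k → d ≤ k + 29 ∧ (54 ≤ d → d ≤ k + 14) := by
    intro d P hP h
    have h1 := Run7.h249.geo_bound (E := EuclideanSpace ℝ (Fin d)) hP.1 hP.2 hk h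
    rw [finrank_euclideanSpace_fin] at h1
    exact ⟨h1.1, h1.2.1⟩
  have hex : ∃ N : ℕ, ∀ (d : ℕ) (P : Set (EuclideanSpace ℝ (Fin d))),
      IsConvexPolytope P → GeometricallyOrbit P k → d < N :=
    ⟨k + 30, fun d P hP h => by have := (hb d P hP h).1; omega⟩
  refine ⟨Nat.find hex, ⟨Nat.find_spec hex, fun N hN => Nat.find_min' hex hN⟩, ?_, ?_, ?_⟩
  · obtain ⟨s, h1, h2⟩ := Run7.h249.exists_demi_geo (k + 2) (by omega)
    have := Nat.find_spec hex (k + 2) _ ⟨⟨s, rfl⟩, h1⟩ h2
    omega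
  · apply Nat.find_min' hex
    intro d P hP h
    have := (hb d P hP h).1
    omega
  · intro h39
    apply Nat.find_min' hex
    intro d P hP h
    have := (hb d P hP h).2
    omega

end Pool.Agent.Results.MP_727bc7_co.LinearBounds
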